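import Mathlib

/-!
Path-pairable graphs; systems of edge-disjoint walks from an ownership function of the edges.
-/

namespace Pool.Agent.X235.Pair

open Finset

/-- `G` is path-pairable: for every partition of the vertex set into pairs `{s i, t i}` there are
pairwise edge-disjoint paths joining `s i` to `t i`. -/
def PathPairable {V : Type} (G : SimpleGraph V) : Prop :=
  ∀ (k : ℕ) (s t : Fin k → V), Function.Bijective (Sum.elim s t) →
    ∃ P : ∀ i, G.Walk (s i) (t i), (∀ i, (P i).IsPath) ∧
      ∀ i j, i ≠ j → List.Disjoint (P i).edges (P j).edges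

section
variable {V ι : Type} {G : SimpleGraph V} {E : V → V → Prop} {o : V → V → ι}

/-- `y` can be reached from `x` by edges owned by `i` -/
def Rch (G : SimpleGraph V) (E : V → V → Prop) (o : V → V → ι) (i : ι) (x y : V) : Prop :=
  ∃ P : G.Walk x y, ∀ x' y', E x' y' → s(x', y') ∈ P.edges → o x' y' = i

theorem Rch.refl (i : ι) (x : V) : Rch G E o i x x :=
  ⟨SimpleGraph.Walk.nil, fun _ _ _ h => by simp at h⟩

theorem Rch.symm {i : ι} {x y : V} (h : Rch G E o i x y) : Rch G E o i y x := by
  obtain ⟨P, hP⟩ := h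
  refine ⟨P.reverse, fun x' y' he hm => hP x' y' he ?_⟩
  simpa using hm

theorem Rch.trans {i : ι} {x y z : V} (h : Rch G E o i x y) (h' : Rch G E o i y z) :
    Rch G E o i x z := by
  obtain ⟨P, hP⟩ := h
  obtain ⟨Q, hQ⟩ := h'
  refine ⟨P.append Q, fun x' y' he hm => ?_⟩
  rw [SimpleGraph.Walk.edges_append, List.mem_append] at hm
  rcases hm with hm | hm
  · exact hP x' y' he hm
  · exact hQ x' y' he hm

theorem Rch.step (hG : ∀ x y, G.Adj x y ↔ E x y ∨ E y x) (hE : ∀ x y, E x y → ¬ E y x)
    {i : ι} {x y : V} (h : E x y) (ho : o x y = i) : Rch G E o i x y := by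
  refine ⟨SimpleGraph.Walk.cons ((hG x y).2 (Or.inl h)) SimpleGraph.Walk.nil, ?_⟩
  intro x' y' he hm
  simp only [SimpleGraph.Walk.edges_cons, SimpleGraph.Walk.edges_nil, List.mem_cons,
    List.not_mem_nil, or_false, Sym2.eq_iff] at hm
  rcases hm with ⟨rfl, rfl⟩ | ⟨rfl, rfl⟩
  · exact ho
  · exact absurd he (hE _ _ h)

theorem paths_of_Rch [DecidableEq V] (hG : ∀ x y, G.Adj x y ↔ E x y ∨ E y x) {s t : ι → V}
    (h : ∀ i, Rch G E o i (s i) (t i)) :
    ∃ P : ∀ i, G.Walk (s i) (t i), (∀ i, (P i).IsPath) ∧
      ∀ i j, i ≠ j → List.Disjoint (P i).edges (P j).edges := by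
  choose P hP using h
  refine ⟨fun i => (P i).bypass, fun i => (P i).bypass_isPath, fun i j hij e h1 h2 => ?_⟩
  have m1 := (P i).edges_bypass_subset_edges h1
  have m2 := (P j).edges_bypass_subset_edges h2
  have hadj := SimpleGraph.Walk.edges_subset_edgeSet _ m1
  induction e using Sym2.ind with
  | _ x y =>
    rw [SimpleGraph.mem_edgeSet, hG] at hadj
    rcases hadj with he | he
    · exact hij ((hP i x y he m1).symm.trans (hP j x y he m2))
    · rw [Sym2.eq_swap] at m1 m2
      exact hij ((hP i y x he m1).symm.trans (hP j y x he m2))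

end

/-- greedy choice -/
theorem greedy {α : Type} [DecidableEq α] [Nonempty α] (S : Finset α) (B : α → Finset α) (q : ℕ)
    (hq : 0 < q) (hB : ∀ a, (B a).card ≤ q) (m : ℕ) (hm : q * m ≤ S.card) :
    ∃ f : ℕ → α, (∀ i < m, f i ∈ S) ∧ ∀ i < m, ∀ j < i, f i ∉ B (f j) := by
  induction m with
  | zero => exact ⟨fun _ => Classical.arbitrary α, by simp, by simp⟩
  | succ m ih =>
    obtain ⟨f, h1, h2⟩ := ih (by nlinarith)
    have hc : ((range m).biUnion fun j => B (f j)).card ≤ q * m := by
      refine card_biUnion_le.trans ?_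
      refine (sum_le_sum fun j _ => hB (f j)).trans ?_
      simp [mul_comm]
    have hne : (S \ ((range m).biUnion fun j => B (f j))).Nonempty := by
      rw [← card_pos]
      have := le_card_sdiff ((range m).biUnion fun j => B (f j)) S
      have h3 : q * (m + 1) = q * m + q := by ring
      omega
    obtain ⟨a, ha⟩ := hne
    rw [mem_sdiff, mem_biUnion] at ha
    push Not at ha
    refine ⟨Function.update f m a, ?_, ?_⟩
    · intro i hi
      by_cases h : i = m
      · subst h; simpa using ha.1
      · rw [Function.update_of_ne h]; exact h1 i (by omega)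
    · intro i hi j hj
      have hjm : j ≠ m := by omega
      rw [Function.update_of_ne hjm]
      by_cases h : i = m
      · subst h; simpa using ha.2 j (mem_range.2 hj)
      · rw [Function.update_of_ne h]; exact h2 i (by omega) j hj

end Pool.Agent.X235.Pair
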