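import Pool.Agent.X235.Pair.Base

/-!
The graph: number of vertices, number of edges, a large distance.
-/

namespace Pool.Agent.X235.Pair

open Finset

/-- the vertices: the first centre, its leaves, the relays (two in each of `r` clusters), the tail
(the vertex `tl 0` is the second centre) -/
inductive Vx (L r S : ℕ) : Type
  | a : Vx L r S
  | lf : Fin L → Vx L r S
  | rl : Fin r → Bool → Vx L r S
  | tl : Fin S → Vx L r S
  deriving DecidableEq

variable {L r S D : ℕ}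

/-- the vertices as a sum type -/
def VxEquiv : Vx L r S ≃ Unit ⊕ (Fin L ⊕ ((Fin r × Bool) ⊕ Fin S)) where
  toFun
    | .a => Sum.inl ()
    | .lf i => Sum.inr (Sum.inl i)
    | .rl c s => Sum.inr (Sum.inr (Sum.inl (c, s)))
    | .tl w => Sum.inr (Sum.inr (Sum.inr w))
  invFun
    | Sum.inl _ => .a
    | Sum.inr (Sum.inl i) => .lf i
    | Sum.inr (Sum.inr (Sum.inl (c, s))) => .rl c s
    | Sum.inr (Sum.inr (Sum.inr w)) => .tl w
  left_inv := by rintro (_ | _ | _ | _) <;> rfl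
  right_inv := by rintro (_ | _ | _ | _) <;> rfl

instance : Fintype (Vx L r S) := Fintype.ofEquiv _ VxEquiv.symm

theorem card_Vx : Fintype.card (Vx L r S) = 1 + L + 2 * r + S := by
  rw [Fintype.card_congr VxEquiv]
  simp
  ring

/-- the oriented edges -/
def E (D : ℕ) : Vx L r S → Vx L r S → Prop
  | .a, .lf _ => True
  | .a, .rl _ _ => True
  | .a, .tl w => 2 ^ D ≤ (w : ℕ)
  | .tl w, .rl _ _ => (w : ℕ) = 0
  | .rl c false, .rl c' true => c = c'
  | .tl w, .tl w' => ((w : ℕ) = 0 ∧ 2 ^ D ≤ (w' : ℕ)) ∨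
      ((w : ℕ) ≠ 0 ∧ Nat.log 2 w' = Nat.log 2 w + 1)
  | _, _ => False

theorem E_asymm (x y : Vx L r S) (h : E D x y) : ¬ E D y x := by
  have hD : 0 < 2 ^ D := by positivity
  rcases x with _ | _ | ⟨c, _ | _⟩ | w <;> rcases y with _ | _ | ⟨c', _ | _⟩ | w' <;>
    simp only [E, not_true_eq_false, not_false_eq_true] at h ⊢
  all_goals try omega
  rintro (⟨h1, h2⟩ | ⟨h1, h2⟩)
  · rcases h with ⟨h3, h4⟩ | ⟨h3, h4⟩
    · omega
    · rw [h1] at h4; simp at h4
  · rcases h with ⟨h3, h4⟩ | ⟨h3, h4⟩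
    · rw [h3] at h2; simp at h2
    · omega

/-- the graph -/
def graph (L r S D : ℕ) : SimpleGraph (Vx L r S) where
  Adj x y := E D x y ∨ E D y x
  symm := ⟨fun _ _ h => h.symm⟩
  loopless := ⟨fun x h => by
    rcases h with h | h <;> exact E_asymm x x h h⟩

theorem graph_adj (x y : Vx L r S) : (graph L r S D).Adj x y ↔ E D x y ∨ E D y x := Iff.rfl

/-- levels -/
def lev (D : ℕ) : Vx L r S → ℕ
  | .tl w => if (w : ℕ) = 0 then D + 1 else Nat.log 2 w
  | _ => D + 1

theorem lev_E (hS : S = 2 ^ (D + 1)) (x y : Vx L r S) (h : E D x y) :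
    lev D x ≤ lev D y + 1 ∧ lev D y ≤ lev D x + 1 := by
  have hD : 0 < 2 ^ D := by positivity
  have key : ∀ w : Fin S, 2 ^ D ≤ (w : ℕ) → Nat.log 2 w = D := by
    intro w hw
    exact Nat.log_eq_of_pow_le_of_lt_pow hw (by rw [← hS]; exact w.2)
  rcases x with _ | _ | ⟨c, _ | _⟩ | w <;> rcases y with _ | _ | ⟨c', _ | _⟩ | w' <;>
    simp only [E] at h <;> simp only [lev] <;> try omega
  · rw [key _ h, if_neg (by omega)]; omega
  · rw [if_pos h]; omega
  · rw [if_pos h]; omega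
  · rcases h with ⟨h1, h2⟩ | ⟨h1, h2⟩
    · rw [if_pos h1, if_neg (by omega), key _ h2]; omega
    · rw [if_neg h1]
      have : (w' : ℕ) ≠ 0 := by
        intro h; rw [h] at h2; simp at h2
      rw [if_neg this]; omega

theorem lev_walk (hS : S = 2 ^ (D + 1)) {x y : Vx L r S} (p : (graph L r S D).Walk x y) :
    lev D y ≤ lev D x + p.length := by
  induction p with
  | nil => simp
  | @cons u v w h p ih =>
    have h1 : lev D v ≤ lev D u + 1 := by
      rcases h with h | h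
      · exact (lev_E hS _ _ h).2
      · exact (lev_E hS _ _ h).1
    simp only [SimpleGraph.Walk.length_cons]
    omega

/-- representatives of the edges -/
def edgeMap (hS : 0 < S) : Fin L ⊕ ((Fin r × Bool) ⊕ (Fin S ⊕ ((Fin r × Bool) ⊕
    (Fin r ⊕ (Fin S × Fin S))))) → Sym2 (Vx L r S)
  | Sum.inl i => s(.a, .lf i)
  | Sum.inr (Sum.inl (c, b)) => s(.a, .rl c b)
  | Sum.inr (Sum.inr (Sum.inl w)) => s(.a, .tl w)
  | Sum.inr (Sum.inr (Sum.inr (Sum.inl (c, b)))) => s(.tl ⟨0, hS⟩, .rl c b)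
  | Sum.inr (Sum.inr (Sum.inr (Sum.inr (Sum.inl c)))) => s(.rl c false, .rl c true)
  | Sum.inr (Sum.inr (Sum.inr (Sum.inr (Sum.inr (w, w'))))) => s(.tl w, .tl w')

theorem edge_mem (hS : 0 < S) (x y : Vx L r S) (h : E D x y) :
    s(x, y) ∈ Set.range (edgeMap (L := L) (r := r) hS) := by
  rcases x with _ | i | ⟨c, _ | _⟩ | w <;> rcases y with _ | i' | ⟨c', _ | _⟩ | w' <;>
    simp only [E] at h
  · exact ⟨Sum.inl i', rfl⟩
  · exact ⟨Sum.inr (Sum.inl (c', false)), rfl⟩
  · exact ⟨Sum.inr (Sum.inl (c', true)), rfl⟩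
  · exact ⟨Sum.inr (Sum.inr (Sum.inl w')), rfl⟩
  · subst h; exact ⟨Sum.inr (Sum.inr (Sum.inr (Sum.inr (Sum.inl c)))), rfl⟩
  · have : w = ⟨0, hS⟩ := Fin.ext h
    subst this
    exact ⟨Sum.inr (Sum.inr (Sum.inr (Sum.inl (c', false)))), rfl⟩
  · have : w = ⟨0, hS⟩ := Fin.ext h
    subst this
    exact ⟨Sum.inr (Sum.inr (Sum.inr (Sum.inl (c', true)))), rfl⟩
  · exact ⟨Sum.inr (Sum.inr (Sum.inr (Sum.inr (Sum.inr (w, w'))))), rfl⟩

theorem edges_le (hS : 0 < S) :
    (graph L r S D).edgeSet.ncard ≤ L + 5 * r + S + S * S := by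
  have h1 : (graph L r S D).edgeSet ⊆ Set.range (edgeMap (L := L) (r := r) hS) := by
    intro e he
    induction e using Sym2.ind with
    | _ x y =>
      rw [SimpleGraph.mem_edgeSet, graph_adj] at he
      rcases he with he | he
      · exact edge_mem hS x y he
      · rw [Sym2.eq_swap]; exact edge_mem hS y x he
  refine (Set.ncard_le_ncard h1 (Set.finite_range _)).trans ?_
  rw [← Set.image_univ]
  refine (Set.ncard_image_le Set.finite_univ).trans ?_
  rw [Set.ncard_univ, Nat.card_eq_fintype_card]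
  simp
  omega

end Pool.Agent.X235.Pair
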