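import Pool.Agent.X235.Pair.Select

/-!
The routing of an arbitrary pairing.
-/

namespace Pool.Agent.X235.Pair

open Finset

variable {L r S D k : ℕ}

/-- number of a tail vertex -/
def tk : Vx L r S → ℕ
  | .tl w => w
  | _ => 0

/-- the token whose lane passes through a tail vertex -/
def pos (w : Fin S) : Fin S := ⟨w - 2 ^ Nat.log 2 w, lt_of_le_of_lt (Nat.sub_le _ _) w.2⟩

/-- default owner of the edge from the second centre -/
def base (idx : Vx L r S → Fin k) : Vx L r S → Fin k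
  | .tl w => idx (.tl (pos w))
  | v => idx v

/-- active tokens -/
def Act (D : ℕ) (p : Vx L r S → Vx L r S) (x : Vx L r S) : Prop :=
  IsP2 D x ∧ ¬ IsP2 D (p x) ∧ ¬ IsRel (p x)

open Classical in
/-- owner of the edge from the first centre to `v` -/
noncomputable def a1 (D : ℕ) (p : Vx L r S → Vx L r S) (idx : Vx L r S → Fin k)
    (f : ℕ → Vx L r S) (v : Vx L r S) : Fin k :=
  if h : ∃ x, Act D p x ∧ f (tk x) = v then idx h.choose else idx v

open Classical in
/-- owner of the edge from the second centre to `v` -/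
noncomputable def a2 (D : ℕ) (p : Vx L r S → Vx L r S) (idx : Vx L r S → Fin k)
    (f : ℕ → Vx L r S) (v : Vx L r S) : Fin k :=
  if h : ∃ x, Act D p x ∧ f (tk x) = v then idx h.choose
  else if h : ∃ x, Act D p x ∧ mu (f (tk x)) = v then idx (f (tk h.choose)) else base idx v

open Classical in
/-- owner of the edge of a cluster -/
noncomputable def am (D : ℕ) (p : Vx L r S → Vx L r S) (idx : Vx L r S → Fin k)
    (f : ℕ → Vx L r S) (c : Fin r) : Fin k :=
  if h : ∃ x, Act D p x ∧ cl (f (tk x)) = some c then idx (f (tk h.choose))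
  else idx (.rl c true)

/-- owner of an oriented edge -/
noncomputable def own (D : ℕ) (p : Vx L r S → Vx L r S) (idx : Vx L r S → Fin k)
    (f : ℕ → Vx L r S) : Vx L r S → Vx L r S → Fin k
  | .a, v => a1 D p idx f v
  | .tl _, .rl c b => a2 D p idx f (.rl c b)
  | .tl w, .tl w' => if (w : ℕ) = 0 then a2 D p idx f (.tl w') else idx (.tl (pos w'))
  | .rl c _, _ => am D p idx f c
  | _, v => a1 D p idx f v

section
variable {p : Vx L r S → Vx L r S} {idx : Vx L r S → Fin k} {f : ℕ → Vx L r S}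

/-- the selection -/
def Sel (D : ℕ) (p : Vx L r S → Vx L r S) (f : ℕ → Vx L r S) : Prop :=
  (∀ i < 2 ^ D, IsRel (f i) ∧ IsRel (p (f i)) ∧ ¬ IsP2 D (p (mu (f i)))) ∧
      ∀ i < 2 ^ D, ∀ j < 2 ^ D, i ≠ j → cl (f i) ≠ cl (f j) ∧ cl (f i) ≠ cl (p (f j)) ∧
        cl (p (f i)) ≠ cl (f j) ∧ cl (p (f i)) ≠ cl (p (f j))

theorem Act.tk_lt {x : Vx L r S} (h : Act D p x) : tk x < 2 ^ D := by
  obtain ⟨⟨w, rfl, hw⟩, _⟩ := h
  exact hw

theorem Act.ext {x y : Vx L r S} (h : Act D p x) (h' : Act D p y) (e : tk x = tk y) : x = y := by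
  obtain ⟨⟨w, rfl, hw⟩, _⟩ := h
  obtain ⟨⟨w', rfl, hw'⟩, _⟩ := h'
  have : w = w' := Fin.ext e
  rw [this]

theorem Act.uniq (hs : Sel D p f) {x y : Vx L r S} (h : Act D p x) (h' : Act D p y)
    (e : cl (f (tk x)) = cl (f (tk y))) : x = y := by
  by_contra hne
  exact (hs.2 _ h.tk_lt _ h'.tk_lt (fun e' => hne (h.ext h' e'))).1 e

theorem a1_tr (hs : Sel D p f) {x : Vx L r S} (h : Act D p x) :
    a1 D p idx f (f (tk x)) = idx x := by
  have hex : ∃ y, Act D p y ∧ f (tk y) = f (tk x) := ⟨x, h, rfl⟩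
  unfold a1
  rw [dif_pos hex]
  have := hex.choose_spec
  rw [this.1.uniq hs h (by rw [this.2])]

theorem a2_tr (hs : Sel D p f) {x : Vx L r S} (h : Act D p x) :
    a2 D p idx f (f (tk x)) = idx x := by
  have hex : ∃ y, Act D p y ∧ f (tk y) = f (tk x) := ⟨x, h, rfl⟩
  unfold a2
  rw [dif_pos hex]
  have := hex.choose_spec
  rw [this.1.uniq hs h (by rw [this.2])]

theorem a2_mu (hs : Sel D p f) {x : Vx L r S} (h : Act D p x) :
    a2 D p idx f (mu (f (tk x))) = idx (f (tk x)) := by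
  have hnex : ¬ ∃ y, Act D p y ∧ f (tk y) = mu (f (tk x)) := by
    rintro ⟨y, hy, e⟩
    have h1 := hy.uniq hs h (by rw [e, cl_mu])
    rw [h1] at e
    exact mu_ne (hs.1 _ h.tk_lt).1 e.symm
  have hex : ∃ y, Act D p y ∧ mu (f (tk y)) = mu (f (tk x)) := ⟨x, h, rfl⟩
  unfold a2
  rw [dif_neg hnex, dif_pos hex]
  have := hex.choose_spec
  rw [this.1.uniq hs h (by rw [← cl_mu (f (tk hex.choose)), this.2, cl_mu])]

theorem am_tr (hs : Sel D p f) {x : Vx L r S} (h : Act D p x) {c : Fin r}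
    (hc : cl (f (tk x)) = some c) : am D p idx f c = idx (f (tk x)) := by
  have hex : ∃ y, Act D p y ∧ cl (f (tk y)) = some c := ⟨x, h, hc⟩
  unfold am
  rw [dif_pos hex]
  have := hex.choose_spec
  rw [this.1.uniq hs h (by rw [this.2, hc])]

theorem a1_def {v : Vx L r S} (h : ¬ ∃ x, Act D p x ∧ f (tk x) = v) :
    a1 D p idx f v = idx v := by
  unfold a1; rw [dif_neg h]

theorem a2_def {v : Vx L r S} (h : ¬ ∃ x, Act D p x ∧ f (tk x) = v)
    (h' : ¬ ∃ x, Act D p x ∧ mu (f (tk x)) = v) : a2 D p idx f v = base idx v := by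
  unfold a2; rw [dif_neg h, dif_neg h']

/-- the vertices that are not transfer relays reach the first centre -/
theorem toA (v : Vx L r S) (hv : ¬ IsP2 D v) (h : ¬ ∃ x, Act D p x ∧ f (tk x) = v) :
    Rch (graph L r S D) (E D) (own D p idx f) (idx v) .a v := by
  rcases v with _ | i | ⟨c, b⟩ | w
  · exact Rch.refl _ _
  · exact Rch.step graph_adj E_asymm trivial (a1_def h)
  · exact Rch.step graph_adj E_asymm trivial (a1_def h)
  · refine Rch.step graph_adj E_asymm ?_ (a1_def h)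
    show 2 ^ D ≤ (w : ℕ)
    by_contra h'
    exact hv ⟨w, rfl, by omega⟩

theorem log_add {m w : ℕ} (h : w < 2 ^ m) : Nat.log 2 (2 ^ m + w) = m :=
  Nat.log_eq_of_pow_le_of_lt_pow (by omega) (by rw [pow_succ]; omega)

theorem lane_lt (hS : S = 2 ^ (D + 1)) {m w : ℕ} (h : w < 2 ^ m) (hm : m ≤ D) : 2 ^ m + w < S := by
  have : 2 ^ m ≤ 2 ^ D := Nat.pow_le_pow_right (by norm_num) hm
  rw [hS, pow_succ]
  omega

theorem pos_lane {m w : ℕ} (h : w < 2 ^ m) (h1 : 2 ^ m + w < S) (h2 : w < S) :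
    pos ⟨2 ^ m + w, h1⟩ = ⟨w, h2⟩ := by
  apply Fin.ext
  simp only [pos, log_add h]
  omega

theorem lane (hS : S = 2 ^ (D + 1)) {w : ℕ} (hw0 : w ≠ 0) (hwS : w < S) (j : ℕ) :
    ∀ (_ : Nat.log 2 w + 1 + j ≤ D) (h1 : 2 ^ (Nat.log 2 w + 1 + j) + w < S),
      Rch (graph L r S D) (E D) (own D p idx f) (idx (.tl ⟨w, hwS⟩)) (.tl ⟨w, hwS⟩)
        (.tl ⟨2 ^ (Nat.log 2 w + 1 + j) + w, h1⟩) := by
  have hlt : w < 2 ^ (Nat.log 2 w + 1) := Nat.lt_pow_succ_log_self (by norm_num) w
  induction j with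
  | zero =>
    intro hj h1
    refine Rch.step graph_adj E_asymm ?_ ?_
    · right
      refine ⟨hw0, ?_⟩
      simp only [add_zero]
      exact log_add hlt
    · show (if w = 0 then _ else _) = _
      rw [if_neg hw0]
      simp only [add_zero]
      rw [pos_lane hlt _ hwS]
  | succ j ih =>
    intro hj h1
    have hlt' : w < 2 ^ (Nat.log 2 w + 1 + j) :=
      lt_of_lt_of_le hlt (Nat.pow_le_pow_right (by norm_num) (by omega))
    have hlt'' : w < 2 ^ (Nat.log 2 w + 1 + (j + 1)) :=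
      lt_of_lt_of_le hlt (Nat.pow_le_pow_right (by norm_num) (by omega))
    have h2 := lane_lt hS hlt' (by omega)
    refine (ih (by omega) h2).trans (Rch.step graph_adj E_asymm ?_ ?_)
    · right
      refine ⟨?_, ?_⟩
      · show 2 ^ (Nat.log 2 w + 1 + j) + w ≠ 0
        omega
      · show Nat.log 2 (2 ^ (Nat.log 2 w + 1 + (j + 1)) + w) =
          Nat.log 2 (2 ^ (Nat.log 2 w + 1 + j) + w) + 1
        rw [log_add hlt', log_add hlt'']
        rfl
    · show (if 2 ^ (Nat.log 2 w + 1 + j) + w = 0 then _ else _) = _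
      rw [if_neg (by omega), pos_lane hlt'' _ hwS]

theorem a2_tail (hs : Sel D p f) (w : Fin S) :
    a2 D p idx f (.tl w) = idx (.tl (pos w)) := by
  refine a2_def ?_ ?_
  · rintro ⟨x, hx, e⟩
    obtain ⟨c, b, h⟩ := (hs.1 _ hx.tk_lt).1
    rw [h] at e
    simp at e
  · rintro ⟨x, hx, e⟩
    obtain ⟨c, b, h⟩ := isRel_mu (hs.1 _ hx.tk_lt).1
    rw [h] at e
    simp at e

/-- the tail vertices below the last level reach the second centre -/
theorem toB (hS : S = 2 ^ (D + 1)) (hs : Sel D p f) (hS0 : 0 < S) (v : Vx L r S)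
    (hv : IsP2 D v) :
    Rch (graph L r S D) (E D) (own D p idx f) (idx v) (.tl ⟨0, hS0⟩) v := by
  obtain ⟨⟨w, hwS⟩, rfl, hw⟩ := hv
  simp only at hw
  rcases Nat.eq_zero_or_pos w with rfl | h0
  · exact Rch.refl _ _
  · have h1 : Nat.log 2 w < D := Nat.log_lt_of_lt_pow (by omega) hw
    have h2 := lane_lt hS hw le_rfl
    have h3 := lane (L := L) (r := r) (p := p) (idx := idx) (f := f) hS (by omega) hwS
      (D - (Nat.log 2 w + 1)) (by omega)
      (by rw [show Nat.log 2 w + 1 + (D - (Nat.log 2 w + 1)) = D by omega]; exact h2)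
    have e : (⟨2 ^ (Nat.log 2 w + 1 + (D - (Nat.log 2 w + 1))) + w, by
      rw [show Nat.log 2 w + 1 + (D - (Nat.log 2 w + 1)) = D by omega]; exact h2⟩ : Fin S) =
        ⟨2 ^ D + w, h2⟩ := by
      apply Fin.ext
      simp only
      rw [show Nat.log 2 w + 1 + (D - (Nat.log 2 w + 1)) = D by omega]
    rw [e] at h3
    refine (Rch.step graph_adj E_asymm ?_ ?_).trans h3.symm
    · left
      exact ⟨rfl, by simp only; omega⟩
    · show (if (0 : ℕ) = 0 then a2 D p idx f (.tl ⟨2 ^ D + w, h2⟩)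
        else idx (.tl (pos ⟨2 ^ D + w, h2⟩))) = _
      rw [if_pos rfl, a2_tail hs, pos_lane hw _ hwS]

/-- relays that are not involved in a transfer reach the second centre -/
theorem relB (hS0 : 0 < S) (v : Vx L r S) (hv : IsRel v)
    (h : ¬ ∃ x, Act D p x ∧ f (tk x) = v) (h' : ¬ ∃ x, Act D p x ∧ mu (f (tk x)) = v) :
    Rch (graph L r S D) (E D) (own D p idx f) (idx v) (.tl ⟨0, hS0⟩) v := by
  obtain ⟨c, b, rfl⟩ := hv
  refine Rch.step graph_adj E_asymm rfl ?_
  show a2 D p idx f (.rl c b) = _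
  rw [a2_def h h']
  rfl

/-- a step inside a cluster -/
theorem clus (hs : Sel D p f) {x : Vx L r S} (h : Act D p x) :
    Rch (graph L r S D) (E D) (own D p idx f) (idx (f (tk x))) (f (tk x)) (mu (f (tk x))) := by
  obtain ⟨c, b, e⟩ := (hs.1 _ h.tk_lt).1
  have hc : cl (f (tk x)) = some c := by rw [e]; rfl
  have h1 := am_tr (idx := idx) hs h hc
  have h2 : E D (Vx.rl c false : Vx L r S) (.rl c true) := by show c = c; rfl
  rw [← h1, e]
  cases b with
  | false => exact Rch.step graph_adj E_asymm h2 rfl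
  | true => exact (Rch.step graph_adj E_asymm h2 rfl).symm

/-- the routing, one orientation of each kind of pair -/
theorem route_aux (hS : S = 2 ^ (D + 1)) (hs : Sel D p f) (hS0 : 0 < S)
    (hp : ∀ v, p (p v) = v) (hi : ∀ v, idx (p v) = idx v) (v : Vx L r S)
    (h : (¬ IsP2 D v ∧ ¬ IsRel v) ∨ (IsP2 D v ∧ ¬ (¬ IsP2 D (p v) ∧ ¬ IsRel (p v))) ∨
      (IsRel v ∧ IsRel (p v) ∧ ¬ ∃ x, Act D p x ∧ f (tk x) = p v)) :
    Rch (graph L r S D) (E D) (own D p idx f) (idx v) v (p v) := by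
  have notTr : ∀ u, ¬ IsRel (p u) → ¬ ∃ x, Act D p x ∧ f (tk x) = u := by
    rintro u hu ⟨x, hx, rfl⟩
    exact hu (hs.1 _ hx.tk_lt).2.1
  have notRelTr : ∀ u, ¬ IsRel u → ¬ ∃ x, Act D p x ∧ f (tk x) = u := by
    rintro u hu ⟨x, hx, rfl⟩
    exact hu (hs.1 _ hx.tk_lt).1
  have relNotP2 : ∀ u : Vx L r S, IsRel u → ¬ IsP2 D u := by
    rintro u ⟨c, b, rfl⟩ ⟨w, e, _⟩
    simp at e
  rcases h with ⟨h1, h2⟩ | ⟨h1, h2⟩ | ⟨h1, h2, h3⟩
  · -- `v` at the first centre
    have r1 := toA (idx := idx) v h1 (notRelTr v h2)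
    by_cases h3 : IsP2 D (p v)
    · -- a transfer
      have hact : Act D p (p v) := ⟨h3, by rw [hp]; exact h1, by rw [hp]; exact h2⟩
      obtain ⟨c, b, e⟩ := (hs.1 _ hact.tk_lt).1
      have r2 : Rch (graph L r S D) (E D) (own D p idx f) (idx v) .a (f (tk (p v))) := by
        have h4 : E D (.a : Vx L r S) (f (tk (p v))) := by rw [e]; trivial
        refine Rch.step graph_adj E_asymm h4 ?_
        have : own D p idx f .a (f (tk (p v))) = a1 D p idx f (f (tk (p v))) := by
          rw [e]; rfl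
        rw [this, a1_tr hs hact, hi]
      have r3 : Rch (graph L r S D) (E D) (own D p idx f) (idx v) (.tl ⟨0, hS0⟩)
          (f (tk (p v))) := by
        have h4 : E D (.tl ⟨0, hS0⟩ : Vx L r S) (f (tk (p v))) := by
          rw [e]; show (0 : ℕ) = 0; rfl
        refine Rch.step graph_adj E_asymm h4 ?_
        have : own D p idx f (.tl ⟨0, hS0⟩) (f (tk (p v))) = a2 D p idx f (f (tk (p v))) := by
          rw [e]; rfl
        rw [this, a2_tr hs hact, hi]
      have r4 := toB (idx := idx) (f := f) hS hs hS0 (p v) h3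
      rw [hi] at r4
      exact r1.symm.trans (r2.trans (r3.symm.trans r4))
    · by_cases h4 : IsRel (p v)
      · have r2 := toA (idx := idx) (p v) h3 (notTr (p v) (by rw [hp]; exact h2))
        rw [hi] at r2
        exact r1.symm.trans r2
      · have r2 := toA (idx := idx) (p v) h3 (notRelTr (p v) h4)
        rw [hi] at r2
        exact r1.symm.trans r2
  · -- `v` at the second centre
    have r1 := toB (idx := idx) (f := f) hS hs hS0 v h1
    have hvr : ¬ IsRel v := fun h => relNotP2 v h h1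
    by_cases h3 : IsP2 D (p v)
    · have r2 := toB (idx := idx) (f := f) hS hs hS0 (p v) h3
      rw [hi] at r2
      exact r1.symm.trans r2
    · have h4 : IsRel (p v) := by
        by_contra h
        exact h2 ⟨h3, h⟩
      have r2 := relB (idx := idx) (f := f) hS0 (p v) h4
        (notTr (p v) (by rw [hp]; exact hvr))
        (by
          rintro ⟨x, hx, e⟩
          refine (hs.1 _ hx.tk_lt).2.2 ?_
          rw [e, hp]; exact h1)
      rw [hi] at r2
      exact r1.symm.trans r2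
  · by_cases h4 : ∃ x, Act D p x ∧ f (tk x) = v
    · obtain ⟨x, hx, rfl⟩ := h4
      have r1 := clus (idx := idx) hs hx
      by_cases h5 : p (f (tk x)) = mu (f (tk x))
      · rw [h5]; exact r1
      · obtain ⟨c, b, e⟩ := isRel_mu h1
        have r2 : Rch (graph L r S D) (E D) (own D p idx f) (idx (f (tk x))) (.tl ⟨0, hS0⟩)
            (mu (f (tk x))) := by
          have h4 : E D (.tl ⟨0, hS0⟩ : Vx L r S) (mu (f (tk x))) := by
            rw [e]; show (0 : ℕ) = 0; rfl
          refine Rch.step graph_adj E_asymm h4 ?_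
          have : own D p idx f (.tl ⟨0, hS0⟩) (mu (f (tk x))) =
              a2 D p idx f (mu (f (tk x))) := by
            rw [e]; rfl
          rw [this, a2_mu hs hx]
        have r3 := relB (idx := idx) (f := f) hS0 (p (f (tk x))) h2 h3
          (by
            rintro ⟨y, hy, e'⟩
            have h6 : cl (f (tk y)) = cl (p (f (tk x))) := by rw [← e', cl_mu]
            by_cases hxy : tk y = tk x
            · rw [hxy] at e'
              exact h5 e'.symm
            · exact (hs.2 _ hy.tk_lt _ hx.tk_lt hxy).2.1 h6)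
        rw [hi] at r3
        exact r1.trans (r2.symm.trans r3)
    · have r1 := toA (idx := idx) v (relNotP2 v h1) h4
      have r2 := toA (idx := idx) (p v) (relNotP2 _ h2) h3
      rw [hi] at r2
      exact r1.symm.trans r2

theorem route (hS : S = 2 ^ (D + 1)) (hs : Sel D p f) (hS0 : 0 < S)
    (hp : ∀ v, p (p v) = v) (hne : ∀ v, p v ≠ v) (hi : ∀ v, idx (p v) = idx v)
    (v : Vx L r S) :
    Rch (graph L r S D) (E D) (own D p idx f) (idx v) v (p v) := by
  by_cases h : (¬ IsP2 D v ∧ ¬ IsRel v) ∨ (IsP2 D v ∧ ¬ (¬ IsP2 D (p v) ∧ ¬ IsRel (p v))) ∨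
      (IsRel v ∧ IsRel (p v) ∧ ¬ ∃ x, Act D p x ∧ f (tk x) = p v)
  · exact route_aux hS hs hS0 hp hi v h
  · have h' : (¬ IsP2 D (p v) ∧ ¬ IsRel (p v)) ∨
        (IsP2 D (p v) ∧ ¬ (¬ IsP2 D (p (p v)) ∧ ¬ IsRel (p (p v)))) ∨
        (IsRel (p v) ∧ IsRel (p (p v)) ∧ ¬ ∃ x, Act D p x ∧ f (tk x) = p (p v)) := by
      rw [hp]
      have key : (∃ x, Act D p x ∧ f (tk x) = p v) → (∃ x, Act D p x ∧ f (tk x) = v) → False := by
        rintro ⟨x, hx, e⟩ ⟨y, hy, e'⟩
        by_cases hxy : tk x = tk y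
        · rw [hxy, e'] at e
          exact hne v e.symm
        · have h1 := (hs.2 _ hx.tk_lt _ hy.tk_lt hxy).2.1
          rw [e, e'] at h1
          exact h1 rfl
      tauto
    have := route_aux hS hs hS0 hp hi (p v) h'
    rw [hp, hi] at this
    exact this.symm

end

theorem pathPairable (hS : S = 2 ^ (D + 1)) (hr : L + 1 + 6 * S ≤ 2 * r) :
    PathPairable (graph L r S D) := by
  intro k s t hb
  have hS0 : 0 < S := by rw [hS]; positivity
  let e : Fin k ⊕ Fin k ≃ Vx L r S := Equiv.ofBijective _ hb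
  let p : Vx L r S → Vx L r S := fun v => e (Sum.swap (e.symm v))
  let idx : Vx L r S → Fin k := fun v => Sum.elim id id (e.symm v)
  have hes : ∀ i, e (Sum.inl i) = s i := fun i => rfl
  have het : ∀ i, e (Sum.inr i) = t i := fun i => rfl
  have hp : ∀ v, p (p v) = v := by
    intro v
    simp only [p, Equiv.symm_apply_apply, Sum.swap_swap, Equiv.apply_symm_apply]
  have hi : ∀ v, idx (p v) = idx v := by
    intro v
    simp only [idx, p, Equiv.symm_apply_apply]
    cases e.symm v <;> rfl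
  have hne : ∀ v, p v ≠ v := by
    intro v h
    have h1 : Sum.swap (e.symm v) = e.symm v := by
      apply e.injective
      rw [Equiv.apply_symm_apply]
      exact h
    cases hv : e.symm v with
    | inl i => rw [hv] at h1; simp at h1
    | inr i => rw [hv] at h1; simp at h1
  obtain ⟨f, hs⟩ := select hS hr p hp
  refine paths_of_Rch (E := E D) (o := own D p idx f) graph_adj fun i => ?_
  have h1 := route (idx := idx) hS hs hS0 hp hne hi (s i)
  have h2 : idx (s i) = i := by
    simp only [idx, ← hes, Equiv.symm_apply_apply, Sum.elim_inl, id]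
  have h3 : p (s i) = t i := by
    simp only [p, ← hes, Equiv.symm_apply_apply, Sum.swap_inl, het]
  rw [h2, h3] at h1
  exact h1

end Pool.Agent.X235.Pair
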