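import Pool.Agent.X235.Pair.Graph

/-!
Selection of the transfer relays.
-/

namespace Pool.Agent.X235.Pair

open Finset

variable {L r S D : ℕ}

/-- relay -/
def IsRel (v : Vx L r S) : Prop := ∃ c b, v = .rl c b

/-- vertices whose cup is at the second centre -/
def IsP2 (D : ℕ) (v : Vx L r S) : Prop := ∃ w : Fin S, v = .tl w ∧ (w : ℕ) < 2 ^ D

/-- cluster -/
def cl : Vx L r S → Option (Fin r)
  | .rl c _ => some c
  | _ => none

/-- the other relay of the cluster -/
def mu : Vx L r S → Vx L r S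
  | .rl c b => .rl c (!b)
  | v => v

theorem mu_mu (v : Vx L r S) : mu (mu v) = v := by
  rcases v with _ | _ | ⟨c, b⟩ | _ <;> simp [mu]

theorem cl_mu (v : Vx L r S) : cl (mu v) = cl v := by
  rcases v with _ | _ | ⟨c, b⟩ | _ <;> simp [mu, cl]

theorem mu_ne {v : Vx L r S} (h : IsRel v) : mu v ≠ v := by
  obtain ⟨c, b, rfl⟩ := h
  simp [mu]

theorem isRel_mu {v : Vx L r S} (h : IsRel v) : IsRel (mu v) := by
  obtain ⟨c, b, rfl⟩ := h
  exact ⟨c, !b, rfl⟩

theorem cl_eq_none {v : Vx L r S} : cl v = none ↔ ¬ IsRel v := by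
  rcases v with _ | _ | ⟨c, b⟩ | _ <;> simp [cl, IsRel]

theorem eq_or_mu {v w : Vx L r S} (hv : IsRel v) (h : cl w = cl v) : w = v ∨ w = mu v := by
  obtain ⟨c, b, rfl⟩ := hv
  rcases w with _ | _ | ⟨c', b'⟩ | _ <;> simp only [cl, reduceCtorEq, Option.some.injEq] at h
  subst h
  cases b <;> cases b' <;> simp [mu]

/-- the relays of a cluster -/
def K : Option (Fin r) → Finset (Vx L r S)
  | none => ∅
  | some c => {.rl c false, .rl c true}

theorem card_K (c : Option (Fin r)) : (K c : Finset (Vx L r S)).card ≤ 2 := by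
  cases c with
  | none => simp [K]
  | some c => exact card_le_two

theorem mem_K {v : Vx L r S} (h : IsRel v) : v ∈ (K (cl v) : Finset (Vx L r S)) := by
  obtain ⟨c, b, rfl⟩ := h
  cases b <;> simp [K, cl]

open Classical in
theorem select (hS : S = 2 ^ (D + 1)) (hr : L + 1 + 6 * S ≤ 2 * r) (p : Vx L r S → Vx L r S)
    (hp : ∀ v, p (p v) = v) :
    ∃ f : ℕ → Vx L r S, (∀ i < 2 ^ D, IsRel (f i) ∧ IsRel (p (f i)) ∧ ¬ IsP2 D (p (mu (f i)))) ∧
      ∀ i < 2 ^ D, ∀ j < 2 ^ D, i ≠ j → cl (f i) ≠ cl (f j) ∧ cl (f i) ≠ cl (p (f j)) ∧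
        cl (p (f i)) ≠ cl (f j) ∧ cl (p (f i)) ≠ cl (p (f j)) := by
  have : Nonempty (Vx L r S) := ⟨.a⟩
  have hpi : Function.Injective p := fun x y h => by rw [← hp x, ← hp y, h]
  have hmi : Function.Injective (mu : Vx L r S → Vx L r S) := fun x y h => by
    rw [← mu_mu x, ← mu_mu y, h]
  have hSD : S = 2 * 2 ^ D := by rw [hS, pow_succ]; ring
  let C : Finset (Vx L r S) :=
    univ.filter fun v => IsRel v ∧ IsRel (p v) ∧ ¬ IsP2 D (p (mu v))
  let Rl : Finset (Vx L r S) := univ.filter fun v => IsRel v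
  let A : Finset (Vx L r S) := univ.filter fun v => ¬ IsRel (p v)
  let B : Finset (Vx L r S) := univ.filter fun v => IsP2 D (p (mu v))
  have memRl : ∀ v, v ∈ Rl ↔ IsRel v := fun v => by
    simp only [Rl, mem_filter, mem_univ, true_and]
  have memA : ∀ v, v ∈ A ↔ ¬ IsRel (p v) := fun v => by
    simp only [A, mem_filter, mem_univ, true_and]
  have memB : ∀ v, v ∈ B ↔ IsP2 D (p (mu v)) := fun v => by
    simp only [B, mem_filter, mem_univ, true_and]
  have memC : ∀ v, v ∈ C ↔ IsRel v ∧ IsRel (p v) ∧ ¬ IsP2 D (p (mu v)) := fun v => by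
    simp only [C, mem_filter, mem_univ, true_and]
  have hRl : Rl.card = 2 * r := by
    have : Rl = (univ : Finset (Fin r × Bool)).image (fun x => Vx.rl x.1 x.2) := by
      ext v
      rw [memRl]
      simp only [mem_univ, true_and, mem_image, Prod.exists]
      constructor
      · rintro ⟨c, b, rfl⟩; exact ⟨c, b, rfl⟩
      · rintro ⟨c, b, rfl⟩; exact ⟨c, b, rfl⟩
    rw [this, card_image_of_injective]
    · simp [mul_comm]
    · rintro ⟨c, b⟩ ⟨c', b'⟩ h
      simpa using h
  have hNR : (univ.filter fun v : Vx L r S => ¬ IsRel v).card + 2 * r = 1 + L + 2 * r + S := by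
    rw [← card_Vx (L := L) (r := r) (S := S), ← hRl, add_comm]
    have := card_filter_add_card_filter_not (s := (univ : Finset (Vx L r S))) (fun v => IsRel v)
    rw [card_univ] at this
    exact this
  have hA : A.card ≤ 1 + L + S := by
    have h1 : A.card ≤ (univ.filter fun v : Vx L r S => ¬ IsRel v).card := by
      refine card_le_card_of_injOn p ?_ (hpi.injOn)
      intro v hv
      rw [mem_coe, memA] at hv
      rw [mem_coe, mem_filter]
      exact ⟨mem_univ _, hv⟩
    omega
  have hB : B.card ≤ 2 ^ D := by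
    have h1 : B.card ≤ (range (2 ^ D)).card := by
      refine card_le_card_of_injOn
        (fun v => match p (mu v) with | .tl w => (w : ℕ) | _ => 0) ?_ ?_
      · intro v hv
        rw [mem_coe, memB] at hv
        obtain ⟨w, hw, hw'⟩ := hv
        simp only [hw, coe_range, Set.mem_Iio]
        exact hw'
      · intro v hv v' hv' h
        rw [mem_coe, memB] at hv hv'
        obtain ⟨w, hw, _⟩ := hv
        obtain ⟨w', hw', _⟩ := hv'
        simp only [hw, hw'] at h
        have : w = w' := Fin.ext h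
        subst this
        exact hmi (hpi (hw.trans hw'.symm))
    simpa using h1
  have hC : 8 * 2 ^ D ≤ C.card := by
    have h1 : Rl ⊆ C ∪ (A ∪ B) := by
      intro v hv
      rw [memRl] at hv
      rw [mem_union, mem_union, memA, memB, memC]
      tauto
    have h2 := (card_le_card h1).trans (card_union_le _ _)
    have h3 := card_union_le A B
    omega
  obtain ⟨f, h1, h2⟩ := greedy C (fun v => (K (cl v) ∪ K (cl (p v))) ∪
    ((K (cl v)).image p ∪ (K (cl (p v))).image p)) 8 (by norm_num) (fun v => by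
      have a1 := card_union_le (K (cl v) ∪ K (cl (p v)))
        ((K (cl v)).image p ∪ (K (cl (p v))).image p)
      have a2 := card_union_le (K (cl v)) (K (cl (p v)) : Finset (Vx L r S))
      have a3 := card_union_le ((K (cl v)).image p) ((K (cl (p v))).image p)
      have a4 := card_K (L := L) (S := S) (cl v)
      have a5 := card_K (L := L) (S := S) (cl (p v))
      have a6 := card_image_le (s := K (cl v)) (f := p)
      have a7 := card_image_le (s := K (cl (p v))) (f := p)
      omega) (2 ^ D) hC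
  have hCm : ∀ i < 2 ^ D, IsRel (f i) ∧ IsRel (p (f i)) ∧ ¬ IsP2 D (p (mu (f i))) := by
    intro i hi
    exact (memC _).1 (h1 i hi)
  have key : ∀ i < 2 ^ D, ∀ j < i, cl (f i) ≠ cl (f j) ∧ cl (f i) ≠ cl (p (f j)) ∧
        cl (p (f i)) ≠ cl (f j) ∧ cl (p (f i)) ≠ cl (p (f j)) := by
    intro i hi j hj
    have h3 := h2 i hi j hj
    obtain ⟨r1, r2, _⟩ := hCm i hi
    simp only [mem_union, mem_image, not_or, not_exists, not_and] at h3
    refine ⟨fun h => h3.1.1 (h ▸ mem_K r1), fun h => h3.1.2 (h ▸ mem_K r1),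
      fun h => h3.2.1 (p (f i)) (h ▸ mem_K r2) (hp _),
      fun h => h3.2.2 (p (f i)) (h ▸ mem_K r2) (hp _)⟩
  refine ⟨f, hCm, ?_⟩
  intro i hi j hj hij
  rcases lt_or_gt_of_ne hij with h | h
  · obtain ⟨k1, k2, k3, k4⟩ := key j hj i h
    exact ⟨k1.symm, k3.symm, k2.symm, k4.symm⟩
  · exact key i hi j h

end Pool.Agent.X235.Pair
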